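import Pool.Agent.W146.VC.Sauer

namespace Pool.Agent.W146.VC

open Finset

variable {V : Type} [DecidableEq V]

/-- the Erdős–Rado process with a bound `B` for the number of patterns -/
theorem er_step (A : Finset V) (s : ℕ) (c : Finset V → Bool) (m B : ℕ) (hB1 : 1 ≤ B)
    (hB : ∀ T ⊆ A, T.card ≤ m → ∀ y ∈ A, y ∉ T →
      ((A \ insert y T).image (fun z => (T.powersetCard s).filter
        (fun f => c (insert z (insert y f)) = true))).card ≤ B)
    (hA : (B + 1) ^ m ≤ A.card) :
    ∃ T ⊆ A, ∃ w ∈ A, w ∉ T ∧ T.card = m ∧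
      ∀ g ⊆ T, g.card = s + 2 → ∃ f ⊆ g, f.card = s + 1 ∧ c g = c (insert w f) := by
  have key : ∀ i ≤ m, ∃ T S : Finset V, T ⊆ A ∧ S ⊆ A ∧ Disjoint T S ∧ T.card = i ∧
      (B + 1) ^ (m - i) ≤ S.card ∧
      (∀ g ⊆ T, g.card = s + 2 → ∃ f ⊆ g, f.card = s + 1 ∧ ∀ z ∈ S, c g = c (insert z f)) ∧
      (∀ e ⊆ T, e.card = s + 1 → ∀ z ∈ S, ∀ z' ∈ S, c (insert z e) = c (insert z' e)) := by
    intro i
    induction i with
    | zero =>
      intro _
      refine ⟨∅, A, empty_subset _, Subset.refl _, disjoint_empty_left _, rfl, by simpa using hA,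
        ?_, ?_⟩
      · intro g hg hgc
        rw [subset_empty.1 hg] at hgc
        simp at hgc
      · intro e he hec
        rw [subset_empty.1 he] at hec
        simp at hec
    | succ i ih =>
      intro him
      obtain ⟨T, S, hTA, hSA, hTS, hTc, hSc, h1, h2⟩ := ih (by omega)
      have hpos : 0 < S.card := lt_of_lt_of_le (Nat.pow_pos (by omega)) hSc
      obtain ⟨y, hy⟩ := Finset.card_pos.1 hpos
      have hyT : y ∉ T := fun h => (Finset.disjoint_left.1 hTS h) hy
      have hyA : y ∈ A := hSA hy
      set φ : V → Finset (Finset V) := fun z => (T.powersetCard s).filter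
        (fun f => c (insert z (insert y f)) = true) with hφ
      have hS' : S.erase y ⊆ A \ insert y T := by
        intro z hz
        rw [mem_erase] at hz
        rw [mem_sdiff, mem_insert, not_or]
        exact ⟨hSA hz.2, hz.1, fun h => (Finset.disjoint_left.1 hTS h) hz.2⟩
      have himg : ((S.erase y).image φ).card ≤ B :=
        le_trans (card_le_card (image_subset_image hS')) (hB T hTA (by omega) y hyA hyT)
      have hk : m - i = (m - (i + 1)) + 1 := by omega
      have hcard : B * (B + 1) ^ (m - (i + 1)) ≤ (S.erase y).card := by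
        rw [card_erase_of_mem hy]
        have h3 : (B + 1) ^ (m - i) = B * (B + 1) ^ (m - (i + 1)) + (B + 1) ^ (m - (i + 1)) := by
          rw [hk, pow_succ]; ring
        have h4 : 1 ≤ (B + 1) ^ (m - (i + 1)) := Nat.one_le_pow _ _ (by omega)
        omega
      have hne : (S.erase y).Nonempty := by
        rw [← Finset.card_pos]
        exact lt_of_lt_of_le (Nat.mul_pos (by omega) (Nat.pow_pos (by omega))) hcard
      obtain ⟨p, hp, hpc⟩ := Finset.exists_le_card_fiber_of_mul_le_card_of_maps_to
        (s := S.erase y) (t := (S.erase y).image φ) (f := φ) (n := (B + 1) ^ (m - (i + 1)))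
        (fun a ha => mem_image_of_mem _ ha) (hne.image _)
        (le_trans (Nat.mul_le_mul_right _ himg) hcard)
      refine ⟨insert y T, (S.erase y).filter (fun z => φ z = p), ?_, ?_, ?_, ?_, hpc, ?_, ?_⟩
      · exact insert_subset hyA hTA
      · exact (filter_subset _ _).trans ((erase_subset _ _).trans hSA)
      · rw [Finset.disjoint_left]
        intro x hx hx'
        rw [mem_filter, mem_erase] at hx'
        rcases mem_insert.1 hx with h | h
        · exact hx'.1.1 h
        · exact (Finset.disjoint_left.1 hTS h) hx'.1.2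
      · rw [card_insert_of_notMem hyT, hTc]
      · intro g hg hgc
        by_cases hyg : y ∈ g
        · refine ⟨g.erase y, erase_subset _ _, by rw [card_erase_of_mem hyg, hgc]; rfl, ?_⟩
          intro z hz
          rw [mem_filter, mem_erase] at hz
          have he : g.erase y ⊆ T := by
            intro x hx
            rw [mem_erase] at hx
            rcases mem_insert.1 (hg hx.2) with h | h
            · exact absurd h hx.1
            · exact h
          have h5 := h2 (g.erase y) he (by rw [card_erase_of_mem hyg, hgc]; rfl) y hy z hz.1.2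
          rw [insert_erase hyg] at h5
          exact h5
        · have hgT : g ⊆ T := by
            intro x hx
            rcases mem_insert.1 (hg hx) with h | h
            · exact absurd (h ▸ hx) hyg
            · exact h
          obtain ⟨f, hf, hfc, hz⟩ := h1 g hgT hgc
          exact ⟨f, hf, hfc, fun z hz' => hz z (mem_of_mem_erase (mem_filter.1 hz').1)⟩
      · intro e he hec z hz z' hz'
        rw [mem_filter] at hz hz'
        by_cases hye : y ∈ e
        · have he' : e.erase y ∈ T.powersetCard s := by
            rw [mem_powersetCard]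
            refine ⟨?_, by rw [card_erase_of_mem hye, hec]; rfl⟩
            intro x hx
            rw [mem_erase] at hx
            rcases mem_insert.1 (he hx.2) with h | h
            · exact absurd h hx.1
            · exact h
          have h6 : φ z = φ z' := by rw [hz.2, hz'.2]
          have h7 : (e.erase y ∈ φ z) ↔ (e.erase y ∈ φ z') := by rw [h6]
          rw [hφ] at h7
          simp only [mem_filter, he', true_and, insert_erase hye] at h7
          rw [Bool.eq_iff_iff]
          exact h7
        · have heT : e ⊆ T := by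
            intro x hx
            rcases mem_insert.1 (he hx) with h | h
            · exact absurd (h ▸ hx) hye
            · exact h
          exact h2 e heT hec z (mem_of_mem_erase hz.1) z' (mem_of_mem_erase hz'.1)
  obtain ⟨T, S, hTA, hSA, hTS, hTc, hSc, h1, _⟩ := key m le_rfl
  rw [Nat.sub_self, pow_zero] at hSc
  obtain ⟨w, hw⟩ := Finset.card_pos.1 (lt_of_lt_of_le Nat.zero_lt_one hSc)
  refine ⟨T, hTA, w, hSA hw, fun h => (Finset.disjoint_left.1 hTS h) hw, hTc, ?_⟩
  intro g hg hgc
  obtain ⟨f, hf, hfc, hz⟩ := h1 g hg hgc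
  exact ⟨f, hf, hfc, hz w hw⟩

/-- from the link back to the colouring -/
theorem homog_of_link {T S : Finset V} {s : ℕ} {c : Finset V → Bool} {w : V} (hS : S ⊆ T)
    (hT : ∀ g ⊆ T, g.card = s + 2 → ∃ f ⊆ g, f.card = s + 1 ∧ c g = c (insert w f))
    (h : Homog (s + 1) (fun f => c (insert w f)) S) : Homog (s + 2) c S := by
  obtain ⟨b, hb⟩ := h
  refine ⟨b, fun e he hec => ?_⟩
  obtain ⟨f, hf, hfc, hcf⟩ := hT e (he.trans hS) hec
  rw [hcf]
  exact hb f (hf.trans he) hfc

/-- the VC dimension of the link -/
theorem vc_link {A T : Finset V} {s d : ℕ} {c : Finset V → Bool} {w : V} (hTA : T ⊆ A)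
    (hw : w ∈ A) (hwT : w ∉ T) (h : VCOn A (s + 2) c d) :
    VCOn T (s + 1) (fun f => c (insert w f)) d := by
  intro P hP hQ
  refine h P (hP.trans hTA) ?_
  intro Q hQP
  obtain ⟨e, heT, hec, hz⟩ := hQ Q hQP
  have hwe : w ∉ e := fun hh => hwT (heT hh)
  refine ⟨insert w e, insert_subset hw (heT.trans hTA), ?_, ?_⟩
  · rw [card_insert_of_notMem hwe]; omega
  · intro z hzP
    have hzw : z ≠ w := fun hh => hwT (hh ▸ hP hzP)
    rw [hz z hzP, mem_insert, not_or, Finset.insert_comm]
    exact ⟨fun h => ⟨⟨hzw, h.1⟩, h.2⟩, fun h => ⟨h.1.2, h.2⟩⟩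

theorem VCOn.mono {A B : Finset V} {r d : ℕ} {c : Finset V → Bool} (h : VCOn A r c d)
    (hB : B ⊆ A) : VCOn B r c d := by
  intro P hP hQ
  refine h P (hP.trans hB) ?_
  intro Q hQP
  obtain ⟨e, he, h1⟩ := hQ Q hQP
  exact ⟨e, he.trans hB, h1⟩

end Pool.Agent.W146.VC
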