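import Pool.Agent.W146.VC.ER

namespace Pool.Agent.W146.VC

open Finset

variable {V : Type} [DecidableEq V]

/-- membership of `z` in the neighbourhood of `p` -/
def nb (c : Finset V → Bool) (p z : V) : Bool := !(decide (z = p)) && c {z, p}

theorem nb_iff (c : Finset V → Bool) (p z : V) :
    nb c p z = true ↔ z ∉ ({p} : Finset V) ∧ c (insert z {p}) = true := by
  rw [nb, Bool.and_eq_true, Bool.not_eq_true', decide_eq_false_iff_not, mem_singleton]

theorem nb_eq (c : Finset V → Bool) {p z : V} (h : z ≠ p) : nb c p z = c {z, p} := by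
  rw [nb]; simp [h]

/-- the points distinguishing `p` from `q` -/
def Dis (A : Finset V) (c : Finset V → Bool) (p q : V) : Finset V :=
  A.filter (fun z => nb c p z ≠ nb c q z)

theorem bern (F n : ℕ) : F ^ (n + 1) + (n + 1) * F ^ n ≤ (F + 1) ^ (n + 1) := by
  induction n with
  | zero => simp
  | succ n ih =>
    calc F ^ (n + 2) + (n + 2) * F ^ (n + 1)
        ≤ (F ^ (n + 1) + (n + 1) * F ^ n) * (F + 1) := by
          have : (F ^ (n + 1) + (n + 1) * F ^ n) * (F + 1) =
            F ^ (n + 2) + (n + 2) * F ^ (n + 1) + (n + 1) * F ^ n := by ring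
          rw [this]; exact Nat.le_add_right _ _
      _ ≤ (F + 1) ^ (n + 1) * (F + 1) := Nat.mul_le_mul_right _ ih
      _ = (F + 1) ^ (n + 2) := by ring

theorem two_pow_le (E : ℕ) (hE : 1 ≤ E) : 2 * (E - 1) ^ E ≤ E ^ E := by
  obtain ⟨F, rfl⟩ : ∃ F, E = F + 1 := ⟨E - 1, by omega⟩
  rw [Nat.add_sub_cancel]
  have h := bern F F
  have h2 : (F + 1) * F ^ F = F ^ (F + 1) + F ^ F := by ring
  rw [h2] at h
  have h3 : 2 * F ^ (F + 1) = F ^ (F + 1) + F ^ (F + 1) := by ring
  rw [h3]
  exact le_trans (by omega) h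

/-- greedy choice of distinguishing points -/
theorem greedy (A : Finset V) (hA : A.Nonempty) (c : Finset V → Bool) (E : ℕ) (hE : 1 ≤ E)
    (U : Finset (V × V)) (hU : ∀ u ∈ U, A.card ≤ E * (Dis A c u.1 u.2).card) (s : ℕ) :
    ∃ Z ⊆ A, Z.card ≤ s ∧
      (U.filter (fun u => ∀ z ∈ Z, nb c u.1 z = nb c u.2 z)).card * E ^ s ≤
        U.card * (E - 1) ^ s := by
  induction s with
  | zero =>
    refine ⟨∅, empty_subset _, by simp, ?_⟩
    simp
  | succ s ih =>
    obtain ⟨Z, hZ, hZc, h⟩ := ih
    set W := U.filter (fun u => ∀ z ∈ Z, nb c u.1 z = nb c u.2 z) with hW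
    -- a point distinguishing many pairs
    obtain ⟨z, hz, hzc⟩ : ∃ z ∈ A, W.card ≤ E * (W.filter (fun u => nb c u.1 z ≠ nb c u.2 z)).card := by
      by_contra hcon
      push Not at hcon
      have h1 : ∑ z ∈ A, E * (W.filter (fun u => nb c u.1 z ≠ nb c u.2 z)).card <
          ∑ _z ∈ A, W.card := Finset.sum_lt_sum_of_nonempty hA hcon
      have h2 : ∑ u ∈ W, A.card ≤ ∑ u ∈ W, E * (Dis A c u.1 u.2).card :=
        Finset.sum_le_sum (fun u hu => hU u (mem_filter.1 hu).1)
      have h3 : ∑ u ∈ W, E * (Dis A c u.1 u.2).card =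
          ∑ z ∈ A, E * (W.filter (fun u => nb c u.1 z ≠ nb c u.2 z)).card := by
        rw [← Finset.mul_sum, ← Finset.mul_sum]
        congr 1
        unfold Dis
        simp only [Finset.card_filter]
        rw [Finset.sum_comm]
      rw [Finset.sum_const, smul_eq_mul] at h1 h2
      rw [h3] at h2
      have h4 : W.card * A.card = A.card * W.card := Nat.mul_comm _ _
      omega
    refine ⟨insert z Z, insert_subset hz hZ, le_trans (card_insert_le _ _) (by omega), ?_⟩
    have hsub : U.filter (fun u => ∀ w ∈ insert z Z, nb c u.1 w = nb c u.2 w) =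
        W.filter (fun u => nb c u.1 z = nb c u.2 z) := by
      ext u
      simp only [hW, mem_filter, mem_insert, forall_eq_or_imp]
      tauto
    rw [hsub]
    have hsplit : (W.filter (fun u => nb c u.1 z = nb c u.2 z)).card +
        (W.filter (fun u => nb c u.1 z ≠ nb c u.2 z)).card = W.card :=
      Finset.card_filter_add_card_filter_not (s := W) (fun u : V × V => nb c u.1 z = nb c u.2 z)
    set x := (W.filter (fun u => nb c u.1 z = nb c u.2 z)).card with hx
    set y := (W.filter (fun u => nb c u.1 z ≠ nb c u.2 z)).card with hy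
    have h5 : x * E ≤ W.card * (E - 1) := by
      obtain ⟨F, rfl⟩ : ∃ F, E = F + 1 := ⟨E - 1, by omega⟩
      rw [Nat.add_sub_cancel]
      have h6 : W.card * F + W.card = (x + y) * (F + 1) := by rw [← hsplit]; ring
      have h7 : (x + y) * (F + 1) = x * (F + 1) + (F + 1) * y := by ring
      omega
    calc x * E ^ (s + 1) = (x * E) * E ^ s := by ring
      _ ≤ (W.card * (E - 1)) * E ^ s := Nat.mul_le_mul_right _ h5
      _ = (W.card * E ^ s) * (E - 1) := by ring
      _ ≤ (U.card * (E - 1) ^ s) * (E - 1) := Nat.mul_le_mul_right _ h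
      _ = U.card * (E - 1) ^ (s + 1) := by ring

/-- separated sets are small -/
theorem sep_small (A : Finset V) (c : Finset V → Bool) (E k d : ℕ) (hE : 1 ≤ E)
    (hVC : VCOn A 2 c d) (hk : ((2 * k + 1) * E + 1) ^ d < 2 ^ k) (P : Finset V) (hPA : P ⊆ A)
    (hP : ∀ p ∈ P, ∀ q ∈ P, p ≠ q → A.card < E * (Dis A c p q).card) : P.card < 2 ^ k := by
  by_contra hge
  rw [not_lt] at hge
  obtain ⟨P', hP', hPc⟩ := Finset.exists_subset_card_eq hge
  have hne : P'.Nonempty := by
    rw [← Finset.card_pos, hPc]; exact Nat.pow_pos (by norm_num)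
  have hA : A.Nonempty := (hne.mono hP').mono hPA
  obtain ⟨Z, hZ, hZc, hU⟩ := greedy A hA c E hE P'.offDiag (by
    intro u hu
    rw [mem_offDiag] at hu
    exact (hP u.1 (hP' hu.1) u.2 (hP' hu.2.1) hu.2.2).le) ((2 * k + 1) * E)
  -- all pairs are distinguished
  have hempty : (P'.offDiag.filter (fun u => ∀ z ∈ Z, nb c u.1 z = nb c u.2 z)) = ∅ := by
    by_contra hne'
    have h1 : 1 ≤ (P'.offDiag.filter (fun u => ∀ z ∈ Z, nb c u.1 z = nb c u.2 z)).card := by
      rw [Nat.one_le_iff_ne_zero, ne_eq, Finset.card_eq_zero]; exact hne'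
    have h2 : P'.offDiag.card ≤ 2 ^ (2 * k) := by
      rw [Finset.offDiag_card, hPc]
      have : (2 : ℕ) ^ (2 * k) = 2 ^ k * 2 ^ k := by rw [← pow_add]; congr 1; ring
      rw [this]
      exact Nat.sub_le _ _
    have h3 : E ^ ((2 * k + 1) * E) ≤ 2 ^ (2 * k) * (E - 1) ^ ((2 * k + 1) * E) :=
      calc E ^ ((2 * k + 1) * E) = 1 * E ^ ((2 * k + 1) * E) := (one_mul _).symm
        _ ≤ _ := Nat.mul_le_mul_right _ h1
        _ ≤ _ := hU
        _ ≤ _ := Nat.mul_le_mul_right _ h2
    have h4 : 2 ^ (2 * k + 1) * (E - 1) ^ ((2 * k + 1) * E) ≤ E ^ ((2 * k + 1) * E) := by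
      rw [Nat.mul_comm (2 * k + 1) E, pow_mul, pow_mul, ← mul_pow]
      exact Nat.pow_le_pow_left (two_pow_le E hE) _
    have h5 : 0 < E ^ ((2 * k + 1) * E) := Nat.pow_pos (by omega)
    have h6 : 2 ^ (2 * k + 1) * (E - 1) ^ ((2 * k + 1) * E) =
        2 * (2 ^ (2 * k) * (E - 1) ^ ((2 * k + 1) * E)) := by rw [pow_succ]; ring
    omega
  have hinj : Set.InjOn (fun p => Z.filter (fun z => nb c p z = true)) (P' : Set V) := by
    intro p hp q hq hpq
    by_contra hne'
    have : (p, q) ∈ (P'.offDiag.filter (fun u => ∀ z ∈ Z, nb c u.1 z = nb c u.2 z)) := by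
      rw [mem_filter, mem_offDiag]
      refine ⟨⟨hp, hq, hne'⟩, ?_⟩
      intro z hz
      have h7 : z ∈ Z.filter (fun z => nb c p z = true) ↔ z ∈ Z.filter (fun z => nb c q z = true) := by
        have := hpq
        simp only at this
        rw [this]
      simp only [mem_filter, hz, true_and] at h7
      show nb c p z = nb c q z
      rw [Bool.eq_iff_iff]
      exact h7
    rw [hempty] at this
    exact absurd this (notMem_empty _)
  have hT : (P'.image (fun p => Z.filter (fun z => nb c p z = true))).card ≤ (Z.card + 1) ^ d := by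
    refine sauer Z _ d ?_ ?_
    · intro t ht
      obtain ⟨p, _, rfl⟩ := mem_image.1 ht
      exact filter_subset _ _
    · intro s hs
      have hsZ : s ⊆ Z := by
        obtain ⟨u, hu, hsu⟩ := hs (Subset.refl s)
        obtain ⟨p, _, rfl⟩ := mem_image.1 hu
        have : s ⊆ Z.filter (fun z => nb c p z = true) := by
          rw [← inter_eq_left]; exact hsu
        exact this.trans (filter_subset _ _)
      refine hVC s (hsZ.trans hZ) ?_
      intro Q hQ
      obtain ⟨u, hu, hsu⟩ := hs hQ
      obtain ⟨p, hp, rfl⟩ := mem_image.1 hu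
      refine ⟨{p}, by rw [singleton_subset_iff]; exact hPA (hP' hp), by simp, ?_⟩
      intro z hz
      rw [← nb_iff, ← hsu, mem_inter, mem_filter]
      exact ⟨fun h => h.2.2, fun h => ⟨hz, hsZ hz, h⟩⟩
  rw [card_image_of_injOn hinj, hPc] at hT
  have h8 : (Z.card + 1) ^ d ≤ ((2 * k + 1) * E + 1) ^ d := Nat.pow_le_pow_left (by omega) _
  omega

/-- a large cluster of points with nearly equal neighbourhoods -/
theorem cluster (A : Finset V) (hA : A.Nonempty) (c : Finset V → Bool) (E k d : ℕ) (hE : 1 ≤ E)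
    (hVC : VCOn A 2 c d) (hk : ((2 * k + 1) * E + 1) ^ d < 2 ^ k) :
    ∃ a ∈ A, ∃ S ⊆ A, A.card ≤ 2 ^ k * S.card ∧ ∀ x ∈ S, E * (Dis A c a x).card ≤ A.card := by
  -- a maximal separated set
  obtain ⟨P, hPm, hPmax⟩ := Finset.exists_max_image (A.powerset.filter (fun P =>
    ∀ p ∈ P, ∀ q ∈ P, p ≠ q → A.card < E * (Dis A c p q).card)) Finset.card
    ⟨∅, by rw [mem_filter]; exact ⟨empty_mem_powerset _, by simp⟩⟩
  rw [mem_filter, mem_powerset] at hPm
  have hPc := sep_small A c E k d hE hVC hk P hPm.1 hPm.2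
  have hself : ∀ x : V, Dis A c x x = ∅ := fun x => by simp [Dis]
  have hsymm : ∀ x y : V, Dis A c x y = Dis A c y x := fun x y => by
    unfold Dis
    ext z
    simp only [mem_filter, ne_comm]
  have hf : ∀ x ∈ A, ∃ p ∈ P, E * (Dis A c p x).card ≤ A.card := by
    intro x hx
    by_cases hxP : x ∈ P
    · exact ⟨x, hxP, by rw [hself]; simp⟩
    · by_contra hcon
      push Not at hcon
      have hmem : insert x P ∈ A.powerset.filter (fun P =>
          ∀ p ∈ P, ∀ q ∈ P, p ≠ q → A.card < E * (Dis A c p q).card) := by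
        rw [mem_filter, mem_powerset]
        refine ⟨insert_subset hx hPm.1, ?_⟩
        intro p hp q hq hpq
        rcases mem_insert.1 hp with h | h <;> rcases mem_insert.1 hq with h' | h'
        · exact absurd (h.trans h'.symm) hpq
        · rw [h, hsymm]; exact hcon q h'
        · rw [h']; exact hcon p h
        · exact hPm.2 p h q h' hpq
      have := hPmax _ hmem
      rw [card_insert_of_notMem hxP] at this
      omega
  choose! f hfP hfE using hf
  have hmaps : ∀ x ∈ A, f x ∈ P := hfP
  by_contra hcon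
  push Not at hcon
  have h1 : ∀ p ∈ P, 2 ^ k * (A.filter (fun x => f x = p)).card < A.card := by
    intro p hp
    by_contra hge
    rw [not_lt] at hge
    obtain ⟨x, hx, hx2⟩ := hcon p (hPm.1 hp) (A.filter (fun x => f x = p)) (filter_subset _ _) hge
    rw [mem_filter] at hx
    have := hfE x hx.1
    rw [hx.2] at this
    omega
  have hPne : P.Nonempty := by
    obtain ⟨x, hx⟩ := hA
    exact ⟨f x, hfP x hx⟩
  have h2 : ∑ p ∈ P, 2 ^ k * (A.filter (fun x => f x = p)).card < ∑ _p ∈ P, A.card :=
    Finset.sum_lt_sum_of_nonempty hPne h1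
  rw [← Finset.mul_sum, ← Finset.card_eq_sum_card_fiberwise hmaps, Finset.sum_const,
    smul_eq_mul] at h2
  have h3 : P.card * A.card ≤ 2 ^ k * A.card := Nat.mul_le_mul_right _ hPc.le
  omega

/-- pairs of large homogeneous sets of the two colours -/
def Rich (A : Finset V) (c : Finset V → Bool) (k : ℕ) : Prop :=
  ∃ H : Bool → Finset V, (∀ b, H b ⊆ A ∧ ∀ x ∈ H b, ∀ y ∈ H b, x ≠ y → c {x, y} = b) ∧
    2 ^ k ≤ (H true).card * (H false).card

theorem homog_two {c : Finset V → Bool} {S : Finset V} {b : Bool}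
    (h : ∀ x ∈ S, ∀ y ∈ S, x ≠ y → c {x, y} = b) : Homog 2 c S := by
  refine ⟨b, fun e he hec => ?_⟩
  obtain ⟨x, y, hxy, rfl⟩ := Finset.card_eq_two.1 hec
  exact h x (he (by simp)) y (he (by simp)) hxy

theorem rich_of (n k d : ℕ) (hn : 2 ≤ n) (c : Finset V → Bool) (hM : 3 ≤ k)
    (hk : ((2 * k + 1) * (16 * n) + 1) ^ d < 2 ^ k) (j : ℕ) :
    ∀ A : Finset V, VCOn A 2 c d → (2 ^ k) ^ j ≤ A.card →
      (∃ S ⊆ A, S.card = n ∧ Homog 2 c S) ∨ Rich A c j := by
  induction j with
  | zero =>
    intro A _ hA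
    rw [pow_zero] at hA
    obtain ⟨a, ha⟩ := Finset.card_pos.1 (lt_of_lt_of_le Nat.zero_lt_one hA)
    refine Or.inr ⟨fun _ => {a}, fun b => ⟨by rw [singleton_subset_iff]; exact ha, ?_⟩, by simp⟩
    intro x hx y hy hxy
    rw [mem_singleton] at hx hy
    exact absurd (hx.trans hy.symm) hxy
  | succ j ih =>
    intro A hVC hA
    have hM8 : 8 ≤ 2 ^ k := by
      calc 8 = 2 ^ 3 := by norm_num
        _ ≤ 2 ^ k := Nat.pow_le_pow_right (by norm_num) hM
    have hMj : 1 ≤ (2 ^ k) ^ j := Nat.one_le_pow _ _ (by positivity)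
    have hA' : 8 * (2 ^ k) ^ j ≤ A.card := by
      calc 8 * (2 ^ k) ^ j ≤ 2 ^ k * (2 ^ k) ^ j := Nat.mul_le_mul_right _ hM8
        _ = (2 ^ k) ^ (j + 1) := by rw [pow_succ]; ring
        _ ≤ A.card := hA
    have hAne : A.Nonempty := by rw [← Finset.card_pos]; omega
    obtain ⟨a, haA, S, hSA, hSc, hSd⟩ := cluster A hAne c (16 * n) k d (by omega) hVC hk
    have hSc' : (2 ^ k) ^ j ≤ S.card := by
      have : 2 ^ k * (2 ^ k) ^ j ≤ 2 ^ k * S.card := by
        calc 2 ^ k * (2 ^ k) ^ j = (2 ^ k) ^ (j + 1) := by rw [pow_succ]; ring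
          _ ≤ A.card := hA
          _ ≤ _ := hSc
      exact Nat.le_of_mul_le_mul_left this (by omega)
    obtain ⟨S', hS', hS'c⟩ := Finset.exists_subset_card_eq hSc'
    have hS'A : S' ⊆ A := hS'.trans hSA
    set B : Bool → Finset V := fun b => (A.filter (fun z => z ≠ a ∧ c {z, a} = b)) \ S' with hB
    have hBsum : A.card ≤ (B true).card + (B false).card + 1 + S'.card := by
      have hsub : A ⊆ (B true ∪ B false) ∪ ({a} ∪ S') := by
        intro z hz
        simp only [hB, mem_union, mem_sdiff, mem_filter, mem_singleton]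
        by_cases h1 : z = a
        · exact Or.inr (Or.inl h1)
        by_cases h2 : z ∈ S'
        · exact Or.inr (Or.inr h2)
        · left
          cases hc : c {z, a}
          · exact Or.inr ⟨⟨hz, h1, rfl⟩, h2⟩
          · exact Or.inl ⟨⟨hz, h1, rfl⟩, h2⟩
      calc A.card ≤ _ := card_le_card hsub
        _ ≤ (B true ∪ B false).card + ({a} ∪ S').card := card_union_le _ _
        _ ≤ ((B true).card + (B false).card) + (1 + S'.card) := by
          refine Nat.add_le_add (card_union_le _ _) (le_trans (card_union_le _ _) ?_)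
          simp
        _ = _ := by ring
    obtain ⟨b, hb⟩ : ∃ b, 3 * A.card ≤ 8 * (B b).card := by
      by_contra hcon
      push Not at hcon
      have h1 := hcon true
      have h2 := hcon false
      rw [hS'c] at hBsum
      omega
    -- few exceptional points
    have hexc : ∀ x ∈ S', (16 * n) * ((B b).filter (fun z => c {z, x} ≠ b)).card ≤ A.card := by
      intro x hx
      refine le_trans (Nat.mul_le_mul_left _ (card_le_card ?_)) (hSd x (hS' hx))
      intro z hz
      simp only [hB, mem_filter, mem_sdiff] at hz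
      obtain ⟨⟨⟨hzA, hza, hzb⟩, hzS⟩, hzc⟩ := hz
      rw [Dis, mem_filter]
      refine ⟨hzA, ?_⟩
      have hzx : z ≠ x := fun h => hzS (h ▸ hx)
      rw [nb_eq c hza, nb_eq c hzx, hzb]
      exact fun h => hzc h.symm
    rcases ih S' (hVC.mono hS'A) (by rw [hS'c]) with h | ⟨H, hH, hHc⟩
    · obtain ⟨T, hT, hTc, hTh⟩ := h
      exact Or.inl ⟨T, hT.trans hS'A, hTc, hTh⟩
    by_cases hbig : ∃ b', n ≤ (H b').card
    · obtain ⟨b', hb'⟩ := hbig
      obtain ⟨T, hT, hTc⟩ := Finset.exists_subset_card_eq hb'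
      refine Or.inl ⟨T, hT.trans ((hH b').1.trans hS'A), hTc, ?_⟩
      exact homog_two (b := b') (fun x hx y hy hxy => (hH b').2 x (hT hx) y (hT hy) hxy)
    push Not at hbig
    set B' := (B b).filter (fun z => ∀ q ∈ H true ∪ H false, c {z, q} = b) with hB'
    have hB'c : 2 * A.card ≤ 8 * B'.card := by
      have hsub : B b ⊆ B' ∪ (H true ∪ H false).biUnion (fun q => (B b).filter (fun z => c {z, q} ≠ b)) := by
        intro z hz
        by_cases h1 : ∀ q ∈ H true ∪ H false, c {z, q} = b
        · exact mem_union_left _ (mem_filter.2 ⟨hz, h1⟩)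
        · push Not at h1
          obtain ⟨q, hq, hqb⟩ := h1
          exact mem_union_right _ (mem_biUnion.2 ⟨q, hq, mem_filter.2 ⟨hz, hqb⟩⟩)
      have h2 : (B b).card ≤ B'.card + ((H true ∪ H false).biUnion
          (fun q => (B b).filter (fun z => c {z, q} ≠ b))).card :=
        le_trans (card_le_card hsub) (card_union_le _ _)
      have h3 : ((H true ∪ H false).biUnion (fun q => (B b).filter (fun z => c {z, q} ≠ b))).card ≤
          ∑ q ∈ H true ∪ H false, ((B b).filter (fun z => c {z, q} ≠ b)).card := card_biUnion_le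
      have h4 : (16 * n) * ∑ q ∈ H true ∪ H false, ((B b).filter (fun z => c {z, q} ≠ b)).card ≤
          ∑ _q ∈ H true ∪ H false, A.card := by
        rw [Finset.mul_sum]
        refine Finset.sum_le_sum (fun q hq => hexc q ?_)
        rcases mem_union.1 hq with h | h
        · exact (hH true).1 h
        · exact (hH false).1 h
      rw [Finset.sum_const, smul_eq_mul] at h4
      have h5 : (H true ∪ H false).card ≤ 2 * n := by
        refine le_trans (card_union_le _ _) ?_
        have := hbig true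
        have := hbig false
        omega
      have h6 : (16 * n) * ((H true ∪ H false).biUnion
          (fun q => (B b).filter (fun z => c {z, q} ≠ b))).card ≤ 2 * n * A.card :=
        le_trans (Nat.mul_le_mul_left _ h3) (le_trans h4 (Nat.mul_le_mul_right _ h5))
      have h7 : 8 * ((H true ∪ H false).biUnion
          (fun q => (B b).filter (fun z => c {z, q} ≠ b))).card ≤ A.card := by
        have h8 : (2 * n) * (8 * ((H true ∪ H false).biUnion
          (fun q => (B b).filter (fun z => c {z, q} ≠ b))).card) ≤ (2 * n) * A.card := by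
          calc _ = (16 * n) * ((H true ∪ H false).biUnion
              (fun q => (B b).filter (fun z => c {z, q} ≠ b))).card := by ring
            _ ≤ _ := h6
        exact Nat.le_of_mul_le_mul_left h8 (by omega)
      omega
    have hB'A : B' ⊆ A := (filter_subset _ _).trans (sdiff_subset.trans (filter_subset _ _))
    rcases ih B' (hVC.mono hB'A) (by omega) with h | ⟨H', hH', hHc'⟩
    · obtain ⟨T, hT, hTc, hTh⟩ := h
      exact Or.inl ⟨T, hT.trans hB'A, hTc, hTh⟩
    -- combine
    right
    have hcross : ∀ x ∈ H b, ∀ y ∈ H' b, c {x, y} = b := by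
      intro x hx y hy
      have hyB := (hH' b).1 hy
      rw [hB', mem_filter] at hyB
      have hxQ : x ∈ H true ∪ H false := by
        cases b
        · exact mem_union_right _ hx
        · exact mem_union_left _ hx
      rw [Finset.pair_comm]
      exact hyB.2 x hxQ
    have hdisj : Disjoint (H b) (H' b) := by
      rw [Finset.disjoint_left]
      intro x hx hx'
      have h1 := (hH' b).1 hx'
      rw [hB', mem_filter] at h1
      have h2 := h1.1
      rw [hB] at h2
      simp only [mem_sdiff] at h2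
      exact h2.2 ((hH b).1 hx)
    obtain ⟨G, hG, hG1, hG2⟩ : ∃ G : Finset V, (G ⊆ A ∧ ∀ x ∈ G, ∀ y ∈ G, x ≠ y → c {x, y} = !b) ∧
        (H (!b)).card ≤ G.card ∧ (H' (!b)).card ≤ G.card := by
      rcases le_total (H (!b)).card (H' (!b)).card with h | h
      · exact ⟨H' (!b), ⟨(hH' (!b)).1.trans hB'A, (hH' (!b)).2⟩, h, le_rfl⟩
      · exact ⟨H (!b), ⟨(hH (!b)).1.trans hS'A, (hH (!b)).2⟩, le_rfl, h⟩
    have hF : (H b ∪ H' b) ⊆ A ∧ ∀ x ∈ H b ∪ H' b, ∀ y ∈ H b ∪ H' b, x ≠ y → c {x, y} = b := by
      refine ⟨union_subset ((hH b).1.trans hS'A) ((hH' b).1.trans hB'A), ?_⟩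
      intro x hx y hy hxy
      rcases mem_union.1 hx with h | h <;> rcases mem_union.1 hy with h' | h'
      · exact (hH b).2 x h y h' hxy
      · exact hcross x h y h'
      · rw [Finset.pair_comm]; exact hcross y h' x h
      · exact (hH' b).2 x h y h' hxy
    have hcF : (H b ∪ H' b).card = (H b).card + (H' b).card := card_union_of_disjoint hdisj
    have hprod : ∀ K : Bool → Finset V, (K b).card * (K (!b)).card = (K true).card * (K false).card := by
      intro K
      cases b
      · exact Nat.mul_comm _ _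
      · rfl
    refine ⟨fun b' => if b' = b then H b ∪ H' b else G, ?_, ?_⟩
    · intro b'
      by_cases hbb : b' = b
      · subst hbb
        simp only [if_true]
        exact hF
      · have : b' = !b := by cases b' <;> cases b <;> simp_all
        simp only [if_neg hbb]
        rw [this]
        exact hG
    · rw [← hprod (fun b' => if b' = b then H b ∪ H' b else G)]
      have hnb : (!b) ≠ b := by cases b <;> simp
      simp only [if_true, if_neg hnb]
      rw [hcF]
      rw [← hprod H] at hHc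
      rw [← hprod H'] at hHc'
      calc 2 ^ (j + 1) = 2 ^ j + 2 ^ j := by rw [pow_succ]; ring
        _ ≤ (H b).card * (H (!b)).card + (H' b).card * (H' (!b)).card := Nat.add_le_add hHc hHc'
        _ ≤ (H b).card * G.card + (H' b).card * G.card :=
          Nat.add_le_add (Nat.mul_le_mul_left _ hG1) (Nat.mul_le_mul_left _ hG2)
        _ = _ := by ring

end Pool.Agent.W146.VC
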