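import Pool.Agent.W146.VC.Upper2

namespace Pool.Agent.W146.VC

open Finset

theorem Homog.mono' {V : Type} {r : ℕ} {c : Finset V → Bool} {S T : Finset V} (h : Homog r c S)
    (hT : T ⊆ S) : Homog r c T := by
  obtain ⟨b, hb⟩ := h
  exact ⟨b, fun e he hec => hb e (he.trans hT) hec⟩

/-- the lower bound, from the parts -/
theorem lower (hBOOL : S_BOOL) (hPULL : S_PULL) (hINS : S_INS) (hTR : S_TR) (hHOM : S_HOM)
    (hBASE : S_BASE) (r : ℕ) : ∃ D K : ℕ, ∀ n : ℕ, ∃ c : Finset ℕ → Bool,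
      Tr (Nb (r + 3) c) D ∧ ∀ S ⊆ range (E (r + 1) n), S.card = K * (n + 1) →
        ¬ Homog (r + 3) c S := by
  induction r with
  | zero =>
    obtain ⟨D, hD⟩ := hBASE.2 hBOOL hPULL hINS
    refine ⟨D, 2, fun n => ⟨base, hD, ?_⟩⟩
    intro S hS hSc hh
    obtain ⟨T, hT, hTc⟩ := Finset.exists_subset_card_eq (s := S) (n := n + 2) (by omega)
    exact hBASE.1 n T (hT.trans hS) hTc (hh.mono' hT)
  | succ r ih =>
    obtain ⟨D, K, h⟩ := ih
    obtain ⟨D', hD'⟩ := hTR hBOOL hINS hPULL (r + 3) D (by omega)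
    refine ⟨D', 2 * K + (r + 3), fun n => ?_⟩
    obtain ⟨c, hc, hS⟩ := h n
    refine ⟨up c, hD' c hc, ?_⟩
    intro S hSS hSc hh
    have h1 : 2 * (K * (n + 1)) + (r + 3) ≤ S.card := by
      rw [hSc]
      nlinarith
    obtain ⟨T, hT, hTc⟩ := Finset.exists_subset_card_eq h1
    exact hHOM (r + 3) (E (r + 1) n) (K * (n + 1)) c (by omega) hS T (hT.trans hSS) hTc
      (hh.mono' hT)

/-- VC dimension of a colouring of the `r`-subsets of the points of a type -/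
def VCdim {V : Type} [DecidableEq V] (r : ℕ) (c : Finset V → Bool) (d : ℕ) : Prop :=
  ∀ P : Finset V, (∀ Q ⊆ P, ∃ e : Finset V, e.card + 1 = r ∧
    ∀ z ∈ P, (z ∈ Q ↔ z ∉ e ∧ c (insert z e) = true)) → P.card ≤ d

theorem VCdim.on {V : Type} [DecidableEq V] {r : ℕ} {c : Finset V → Bool} {d : ℕ}
    (h : VCdim r c d) (A : Finset V) : VCOn A r c d := by
  intro P _ hQ
  refine h P (fun Q hQP => ?_)
  obtain ⟨e, _, he⟩ := hQ Q hQP
  exact ⟨e, he⟩

/-- transport from the natural numbers to `Fin N` -/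
theorem to_fin {N r d : ℕ} {c : Finset ℕ → Bool} (h : VCOn (range N) r c d) :
    VCdim r (fun e : Finset (Fin N) => c (e.map Fin.valEmbedding)) d := by
  intro P hP
  have h1 := h (P.map Fin.valEmbedding) (by
    intro x hx
    obtain ⟨y, _, rfl⟩ := mem_map.1 hx
    exact mem_range.2 y.2) (by
    intro Q hQ
    obtain ⟨e, hec, hz⟩ := hP (P.filter (fun y => (y : ℕ) ∈ Q)) (filter_subset _ _)
    refine ⟨e.map Fin.valEmbedding, ?_, by rw [card_map]; exact hec, ?_⟩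
    · intro x hx
      obtain ⟨y, _, rfl⟩ := mem_map.1 hx
      exact mem_range.2 y.2
    · intro z hz'
      obtain ⟨y, hy, rfl⟩ := mem_map.1 hz'
      have h2 := hz y hy
      rw [mem_filter] at h2
      have h3 : (Fin.valEmbedding y ∈ Q) ↔ (y ∈ P ∧ (y : ℕ) ∈ Q) :=
        ⟨fun h => ⟨hy, h⟩, fun h => h.2⟩
      rw [h3, h2, Finset.mem_map' Fin.valEmbedding]
      simp only [Finset.map_insert])
  rwa [card_map] at h1

theorem fin_homog {N r : ℕ} {c : Finset ℕ → Bool} {S : Finset (Fin N)}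
    (h : Homog r (fun e : Finset (Fin N) => c (e.map Fin.valEmbedding)) S) :
    Homog r c (S.map Fin.valEmbedding) := by
  obtain ⟨b, hb⟩ := h
  refine ⟨b, fun e he hec => ?_⟩
  obtain ⟨f, hf, rfl⟩ := Finset.subset_map_iff.1 he
  rw [card_map] at hec
  exact hb f hf hec

theorem main (hBOOL : S_BOOL) (hPULL : S_PULL) (hINS : S_INS) (hTR : S_TR) (hHOM : S_HOM)
    (hBASE : S_BASE) :
    (∀ r d : ℕ, 2 ≤ r → ∃ C : ℕ, ∀ (V : Type) [Fintype V] [DecidableEq V]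
      (c : Finset V → Bool) (n : ℕ), 2 ≤ n → VCdim r c d →
      E (r - 1) (C * Nat.clog 2 n ^ 2) ≤ Fintype.card V →
      ∃ S : Finset V, S.card = n ∧ Homog r c S) ∧
    (∀ (V : Type) [Fintype V] [DecidableEq V] (c : Finset V → Bool) (d n : ℕ), 2 ≤ n →
      VCdim 3 c d → 2 ^ 2 ^ (192 * (d + 1) * Nat.clog 2 n ^ 2) ≤ Fintype.card V →
      ∃ S : Finset V, S.card = n ∧ Homog 3 c S) ∧
    (∀ r : ℕ, 3 ≤ r → ∃ d K : ℕ, ∀ n : ℕ, ∃ c : Finset (Fin (E (r - 2) n)) → Bool,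
      VCdim r c d ∧ ∀ S : Finset (Fin (E (r - 2) n)), S.card = K * (n + 1) → ¬ Homog r c S) := by
  refine ⟨?_, ?_, ?_⟩
  · intro r d hr
    obtain ⟨s, rfl⟩ : ∃ s, r = s + 2 := ⟨r - 2, by omega⟩
    obtain ⟨C, _, h⟩ := upper s d
    refine ⟨C, fun V _ _ c n hn hVC hV => ?_⟩
    obtain ⟨S, _, hSc, hSh⟩ := h V univ c n hn (hVC.on univ) (by rw [Finset.card_univ]; exact hV)
    exact ⟨S, hSc, hSh⟩
  · intro V _ _ c d n hn hVC hV
    obtain ⟨S, _, hSc, hSh⟩ := triples univ c d n hn (hVC.on univ) (by rw [Finset.card_univ]; exact hV)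
    exact ⟨S, hSc, hSh⟩
  · intro r hr
    obtain ⟨s, rfl⟩ : ∃ s, r = s + 3 := ⟨r - 3, by omega⟩
    obtain ⟨D, K, h⟩ := lower hBOOL hPULL hINS hTR hHOM hBASE s
    obtain ⟨d, hd⟩ := hBOOL.2.2.2.2.2.2.2 D
    refine ⟨d, K, fun n => ?_⟩
    obtain ⟨c, hc, hS⟩ := h n
    refine ⟨fun e => c (e.map Fin.valEmbedding), to_fin (hd ℕ (s + 3) c _ hc), ?_⟩
    intro S hSc hh
    refine hS (S.map Fin.valEmbedding) ?_ (by rw [card_map]; exact hSc) (fin_homog hh)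
    intro x hx
    obtain ⟨y, _, rfl⟩ := mem_map.1 hx
    exact mem_range.2 y.2

end Pool.Agent.W146.VC
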