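import Pool.Agent.W146.VC.Stm

namespace Pool.Agent.W146.VC

open Finset

/-- the number of subsets of size at most `d` -/
theorem card_small {α : Type} [DecidableEq α] (P : Finset α) (d : ℕ) :
    (P.powerset.filter (fun Q => Q.card ≤ d)).card ≤ (P.card + 1) ^ d := by
  induction d with
  | zero =>
    rw [pow_zero]
    refine Finset.card_le_one.2 ?_
    intro a ha b hb
    rw [mem_filter] at ha hb
    have h1 : a = ∅ := Finset.card_eq_zero.1 (Nat.le_zero.1 ha.2)
    have h2 : b = ∅ := Finset.card_eq_zero.1 (Nat.le_zero.1 hb.2)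
    rw [h1, h2]
  | succ d ih =>
    have hsub : P.powerset.filter (fun Q => Q.card ≤ d + 1) ⊆
        ((P.powerset.filter (fun Q => Q.card ≤ d)) ×ˢ (insertNone P)).image
          (fun p => match p.2 with
            | none => p.1
            | some x => insert x p.1) := by
      intro Q hQ
      rw [mem_filter, mem_powerset] at hQ
      rw [mem_image]
      by_cases hd : Q.card ≤ d
      · refine ⟨(Q, none), ?_, rfl⟩
        rw [mem_product]
        exact ⟨by rw [mem_filter, mem_powerset]; exact ⟨hQ.1, hd⟩, by simp⟩
      · have hne : Q.Nonempty := by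
          rw [← Finset.card_pos]; omega
        obtain ⟨x, hx⟩ := hne
        refine ⟨(Q.erase x, some x), ?_, ?_⟩
        · rw [mem_product]
          refine ⟨?_, ?_⟩
          · rw [mem_filter, mem_powerset]
            refine ⟨(erase_subset _ _).trans hQ.1, ?_⟩
            show (Q.erase x).card ≤ d
            rw [card_erase_of_mem hx]
            omega
          · show some x ∈ insertNone P
            rw [Finset.some_mem_insertNone]
            exact hQ.1 hx
        · show insert x (Q.erase x) = Q
          exact insert_erase hx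
    calc (P.powerset.filter (fun Q => Q.card ≤ d + 1)).card
        ≤ _ := card_le_card hsub
      _ ≤ ((P.powerset.filter (fun Q => Q.card ≤ d)) ×ˢ (insertNone P)).card := card_image_le
      _ = (P.powerset.filter (fun Q => Q.card ≤ d)).card * (P.card + 1) := by
        rw [card_product, Finset.card_insertNone]
      _ ≤ (P.card + 1) ^ d * (P.card + 1) := Nat.mul_le_mul_right _ ih
      _ = (P.card + 1) ^ (d + 1) := (pow_succ _ _).symm

/-- Sauer-Shelah in the form used here -/
theorem sauer {α : Type} [DecidableEq α] (P : Finset α) (T : Finset (Finset α)) (d : ℕ)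
    (hT : ∀ t ∈ T, t ⊆ P) (hd : ∀ s, T.Shatters s → s.card ≤ d) :
    T.card ≤ (P.card + 1) ^ d := by
  refine le_trans (Finset.card_le_card_shatterer T) (le_trans (card_le_card ?_) (card_small P d))
  intro s hs
  rw [Finset.mem_shatterer] at hs
  rw [mem_filter, mem_powerset]
  refine ⟨?_, hd s hs⟩
  obtain ⟨u, hu, hsu⟩ := hs (Subset.refl s)
  have : s ⊆ u := by
    rw [← inter_eq_left]; exact hsu
  exact this.trans (hT u hu)

/-- the number of cells of a family of sets of bounded VC dimension (dual shatter function) -/
theorem cells {V ι : Type} [DecidableEq V] [DecidableEq ι] (A : Finset V) (I : Finset ι)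
    (F : ι → V → Bool) (d : ℕ)
    (hF : ∀ P ⊆ A, (∀ Q ⊆ P, ∃ i ∈ I, ∀ z ∈ P, (z ∈ Q ↔ F i z = true)) → P.card ≤ d) :
    (A.image (fun z => I.filter (fun i => F i z = true))).card ≤ (I.card + 1) ^ 2 ^ (d + 1) := by
  refine sauer I _ _ ?_ ?_
  · intro t ht
    obtain ⟨z, _, rfl⟩ := mem_image.1 ht
    exact filter_subset _ _
  · intro J hJ
    by_contra hlt
    rw [not_le] at hlt
    have hJI : J ⊆ I := by
      obtain ⟨u, hu, hJu⟩ := hJ (Subset.refl J)
      obtain ⟨z, _, rfl⟩ := mem_image.1 hu
      have : J ⊆ I.filter (fun i => F i z = true) := by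
        rw [← inter_eq_left]; exact hJu
      exact this.trans (filter_subset _ _)
    -- an injection of the subsets of `Fin (d + 1)` into `J`
    have hc : (univ : Finset (Finset (Fin (d + 1)))).card ≤ J.card := by
      rw [Finset.card_univ, Fintype.card_finset, Fintype.card_fin]
      exact hlt.le
    obtain ⟨g, hg, hinj⟩ : ∃ g : Finset (Fin (d + 1)) → ι, (∀ s, g s ∈ J) ∧
        Function.Injective g := by
      have h1 : Fintype.card (Finset (Fin (d + 1))) ≤ Fintype.card J := by
        rw [Fintype.card_coe]
        exact hc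
      obtain ⟨e⟩ := Function.Embedding.nonempty_of_card_le h1
      refine ⟨fun s => (e s : ι), fun s => (e s).2, fun s t hst => e.injective (Subtype.ext hst)⟩
    have hz : ∀ t : Fin (d + 1), ∃ z ∈ A, ∀ s : Finset (Fin (d + 1)),
        (F (g s) z = true ↔ t ∈ s) := by
      intro t
      classical
      obtain ⟨u, hu, hJu⟩ := hJ (t := (univ.filter (fun s : Finset (Fin (d + 1)) => t ∈ s)).image g)
        (by
          intro j hj
          obtain ⟨s, _, rfl⟩ := mem_image.1 hj
          exact hg s)
      obtain ⟨z, hzA, rfl⟩ := mem_image.1 hu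
      refine ⟨z, hzA, fun s => ?_⟩
      have h1 : g s ∈ J ∩ I.filter (fun i => F i z = true) ↔ F (g s) z = true := by
        rw [mem_inter, mem_filter]
        exact ⟨fun h => h.2.2, fun h => ⟨hg s, hJI (hg s), h⟩⟩
      rw [← h1, hJu, mem_image]
      constructor
      · rintro ⟨s', hs', hgs⟩
        rw [mem_filter] at hs'
        rw [← hinj hgs]
        exact hs'.2
      · intro h
        exact ⟨s, by rw [mem_filter]; exact ⟨mem_univ _, h⟩, rfl⟩
    choose z hzA hz using hz
    have hzinj : Function.Injective z := by
      intro t t' htt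
      have h1 := (hz t {t}).2 (mem_singleton_self t)
      rw [htt] at h1
      have h2 := (hz t' {t}).1 h1
      exact (mem_singleton.1 h2).symm
    have hP := hF (univ.image z) (by
      intro x hx
      obtain ⟨t, _, rfl⟩ := mem_image.1 hx
      exact hzA t) (by
      intro Q hQ
      refine ⟨g (univ.filter (fun t => z t ∈ Q)), hJI (hg _), ?_⟩
      intro x hx
      obtain ⟨t, _, rfl⟩ := mem_image.1 hx
      rw [hz t, mem_filter]
      exact ⟨fun h => ⟨mem_univ _, h⟩, fun h => h.2⟩)
    rw [card_image_of_injective _ hzinj, Finset.card_univ, Fintype.card_fin] at hP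
    omega

end Pool.Agent.W146.VC
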