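import Pool.Agent.H526R2.Delta.Main

/-!
# Ramsey numbers of colourings of bounded VC dimension: definitions and statements of the parts
-/

namespace Pool.Agent.W146.VC

open Finset
open Pool.Agent.H526R2.Delta (hd)

/-- iterated exponentials: `E 0 x = x`, `E (j + 1) x = 2 ^ E j x` -/
def E : ℕ → ℕ → ℕ
  | 0, x => x
  | j + 1, x => 2 ^ E j x

/-- all `r`-element subsets of `S` have the same colour under `c` -/
def Homog {V : Type} (r : ℕ) (c : Finset V → Bool) (S : Finset V) : Prop :=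
  ∃ b : Bool, ∀ e : Finset V, e ⊆ S → e.card = r → c e = b

/-- the colouring `c` of the `r`-subsets of `A` has VC dimension at most `d`: no set of more than `d`
points of `A` is shattered by the sets `{z ∉ e : c (e ∪ {z}) = true}`, `e ⊆ A`, `|e| = r - 1` -/
def VCOn {V : Type} [DecidableEq V] (A : Finset V) (r : ℕ) (c : Finset V → Bool) (d : ℕ) : Prop :=
  ∀ P ⊆ A, (∀ Q ⊆ P, ∃ e ⊆ A, e.card + 1 = r ∧
    ∀ z ∈ P, (z ∈ Q ↔ z ∉ e ∧ c (insert z e) = true)) → P.card ≤ d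

/-- the family `F` of sets has at most `(k + 2) ^ D` traces on every set of `k` points -/
def Tr {V : Type} (F : Set (Set V)) (D : ℕ) : Prop :=
  ∀ P : Finset V, ∃ T : Finset (Finset V), T.card ≤ (P.card + 2) ^ D ∧
    ∀ A ∈ F, ∃ t ∈ T, ∀ z ∈ P, (z ∈ t ↔ z ∈ A)

/-- the neighbourhoods of the `(r - 1)`-sets -/
def Nb {V : Type} [DecidableEq V] (r : ℕ) (c : Finset V → Bool) : Set (Set V) :=
  {A | ∃ e : Finset V, e.card + 1 = r ∧ A = {z | z ∉ e ∧ c (insert z e) = true}}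

/-- the list of the highest differing binary digits of consecutive members of a list -/
def dl : List ℕ → List ℕ
  | [] => []
  | [_] => []
  | x :: y :: l => hd x y :: dl (y :: l)

/-- the colour of a list of differences: `χ` of the set if the list is monotone, otherwise whether it
starts with an ascent -/
def dcol (χ : Finset ℕ → Bool) (l : List ℕ) : Bool :=
  if l.Pairwise (· < ·) ∨ l.Pairwise (· > ·) then χ l.toFinset
  else match l with
    | a :: b :: _ => decide (a < b)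
    | _ => false

/-- stepping up -/
def up (χ : Finset ℕ → Bool) (e : Finset ℕ) : Bool := dcol χ (dl (e.sort (· ≤ ·)))

/-- the colouring of the triples `x < y < z` according to whether `hd x y < hd y z` -/
def base (e : Finset ℕ) : Bool :=
  match dl (e.sort (· ≤ ·)) with
    | a :: b :: _ => decide (a < b)
    | _ => false

/-- closure properties of `Tr` -/
def S_BOOL : Prop :=
  (∀ (V : Type) (F G : Set (Set V)) (D D' : ℕ), Tr F D → Tr G D' →
    Tr {C | ∃ A ∈ F, ∃ B ∈ G, C = A ∩ B} (D + D')) ∧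
  (∀ (V : Type) (F G : Set (Set V)) (D D' : ℕ), Tr F D → Tr G D' →
    Tr {C | ∃ A ∈ F, ∃ B ∈ G, C = A ∪ B} (D + D')) ∧
  (∀ (V : Type) (F : Set (Set V)) (D : ℕ), Tr F D → Tr {C | ∃ A ∈ F, C = Aᶜ} D) ∧
  (∀ (V : Type) (F G : Set (Set V)) (D D' : ℕ), Tr F D → Tr G D' → Tr (F ∪ G) (D + D' + 1)) ∧
  (∀ (V : Type) (F G : Set (Set V)) (D D' : ℕ), F ⊆ G → D' ≤ D → Tr G D' → Tr F D) ∧
  Tr {C : Set ℕ | ∃ x, C = Set.Iio x} 1 ∧
  (∀ (V : Type) (A : Set V), Tr {A} 0) ∧
  (∀ D : ℕ, ∃ d : ℕ, ∀ (V : Type) [DecidableEq V] (r : ℕ) (c : Finset V → Bool) (A : Finset V),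
    Tr (Nb r c) D → VCOn A r c d)

/-- pulling back under the distance to a point -/
def S_PULL : Prop :=
  ∀ (F : Set (Set ℕ)) (D : ℕ), Tr F D →
    Tr {C : Set ℕ | ∃ x : ℕ, ∃ B ∈ F, C = {z | z ≠ x ∧ hd x z ∈ B}} (D + 4)

/-- homogeneous sets of the stepped up colouring -/
def S_HOM : Prop :=
  ∀ (r N n : ℕ) (χ : Finset ℕ → Bool), 3 ≤ r →
    (∀ S ⊆ range N, S.card = n → ¬ Homog r χ S) →
    ∀ S ⊆ range (2 ^ N), S.card = 2 * n + r → ¬ Homog (r + 1) (up χ) S

/-- inserting a point into a sorted list `l`, for a family of pairs `(l, G)` -/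
def S_INS : Prop :=
  S_BOOL → S_PULL → ∀ m D : ℕ, ∃ D' : ℕ, ∀ X : Set (List ℕ × (List ℕ → Bool)),
    (∀ p ∈ X, p.1.Pairwise (· < ·) ∧ p.1.length = m) →
    (∀ i < m, Tr {H : Set ℕ | ∃ p ∈ X, H = {h | p.2 ((dl p.1).insertIdx i h) = true}} D) →
    Tr {C : Set ℕ | ∃ p ∈ X, C = {z | z ∉ p.1 ∧
      p.2 (dl (p.1.orderedInsert (· ≤ ·) z)) = true}} D'

/-- traces of the stepped up colouring -/
def S_TR : Prop :=
  S_BOOL → S_INS → S_PULL → ∀ r D : ℕ, 3 ≤ r → ∃ D' : ℕ, ∀ χ : Finset ℕ → Bool,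
    Tr (Nb r χ) D → Tr (Nb (r + 1) (up χ)) D'

/-- the base of the induction -/
def S_BASE : Prop :=
  (∀ n : ℕ, ∀ S ⊆ range (2 ^ n), S.card = n + 2 → ¬ Homog 3 base S) ∧
  (S_BOOL → S_PULL → S_INS → ∃ D : ℕ, Tr (Nb 3 base) D)

/-- graphs: every two-colouring of the pairs of a set of `2 ^ (64 (d + 1) (log n)^2)` points of VC
dimension at most `d` has a homogeneous set of `n` points -/
def S_GRAPH : Prop :=
  ∀ (V : Type) [DecidableEq V] (A : Finset V) (c : Finset V → Bool) (d n : ℕ), 2 ≤ n →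
    VCOn A 2 c d → 2 ^ (64 * (d + 1) * Nat.clog 2 n ^ 2) ≤ A.card →
    ∃ S ⊆ A, S.card = n ∧ Homog 2 c S

end Pool.Agent.W146.VC
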