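import Pool.Agent.W146.VC.Graph

namespace Pool.Agent.W146.VC

open Finset

theorem clog_pos' {n : ℕ} (hn : 2 ≤ n) : 1 ≤ Nat.clog 2 n :=
  Nat.clog_pos (by norm_num) hn

/-- numerical condition for the graph case -/
theorem param (n d L : ℕ) (hL : n ≤ 2 ^ L) (hd : d < n) :
    ((2 * (16 * (d + 1) * (L + 1)) + 1) * (16 * n) + 1) ^ d < 2 ^ (16 * (d + 1) * (L + 1)) := by
  have h1 : d + 1 ≤ 2 ^ L := by omega
  have h2 : L + 1 ≤ 2 ^ L := Nat.lt_two_pow_self
  have h3 : 16 * (d + 1) * (L + 1) ≤ 2 ^ (4 + 2 * L) := by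
    calc 16 * (d + 1) * (L + 1) ≤ 16 * 2 ^ L * 2 ^ L :=
          Nat.mul_le_mul (Nat.mul_le_mul_left _ h1) h2
      _ = 2 ^ (4 + 2 * L) := by rw [pow_add, two_mul, pow_add]; norm_num; ring
  have h4 : 1 ≤ 2 ^ (4 + 2 * L) := Nat.one_le_two_pow
  have h5 : 2 * (16 * (d + 1) * (L + 1)) + 1 ≤ 2 ^ (6 + 2 * L) := by
    have : (2 : ℕ) ^ (6 + 2 * L) = 4 * 2 ^ (4 + 2 * L) := by
      rw [show 6 + 2 * L = 2 + (4 + 2 * L) by ring, pow_add]; norm_num
    omega
  have h6 : 16 * n ≤ 2 ^ (4 + L) := by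
    calc 16 * n ≤ 16 * 2 ^ L := Nat.mul_le_mul_left _ hL
      _ = 2 ^ (4 + L) := by rw [pow_add]; norm_num
  have h7 : (2 * (16 * (d + 1) * (L + 1)) + 1) * (16 * n) + 1 ≤ 2 ^ (11 + 3 * L) := by
    have h8 : (2 * (16 * (d + 1) * (L + 1)) + 1) * (16 * n) ≤ 2 ^ (10 + 3 * L) := by
      calc _ ≤ 2 ^ (6 + 2 * L) * 2 ^ (4 + L) := Nat.mul_le_mul h5 h6
        _ = 2 ^ (10 + 3 * L) := by rw [← pow_add]; congr 1; ring
    have h9 : (2 : ℕ) ^ (11 + 3 * L) = 2 * 2 ^ (10 + 3 * L) := by
      rw [show 11 + 3 * L = (10 + 3 * L) + 1 by ring, pow_succ]; ring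
    have h10 : 1 ≤ 2 ^ (10 + 3 * L) := Nat.one_le_two_pow
    omega
  calc _ ≤ (2 ^ (11 + 3 * L)) ^ d := Nat.pow_le_pow_left h7 d
    _ = 2 ^ ((11 + 3 * L) * d) := (pow_mul _ _ _).symm
    _ < 2 ^ (16 * (d + 1) * (L + 1)) := by
      apply Nat.pow_lt_pow_right (by norm_num)
      nlinarith

/-- the graph case -/
theorem graph : S_GRAPH := by
  intro V _ A c d n hn hVC hA
  set L := Nat.clog 2 n with hL
  have hL1 : 1 ≤ L := clog_pos' hn
  have hnL : n ≤ 2 ^ L := Nat.le_pow_clog (by norm_num) n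
  by_cases hd : d < n
  · have hk := param n d L hnL hd
    have hk3 : 3 ≤ 16 * (d + 1) * (L + 1) := by nlinarith
    have hsize : (2 ^ (16 * (d + 1) * (L + 1))) ^ (2 * L) ≤ A.card := by
      refine le_trans ?_ hA
      rw [← pow_mul]
      apply Nat.pow_le_pow_right (by norm_num)
      have : L + 1 ≤ 2 * L := by omega
      calc 16 * (d + 1) * (L + 1) * (2 * L) ≤ 16 * (d + 1) * (2 * L) * (2 * L) :=
            Nat.mul_le_mul_right _ (Nat.mul_le_mul_left _ this)
        _ = 64 * (d + 1) * L ^ 2 := by ring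
    rcases rich_of n _ d hn c hk3 hk (2 * L) A hVC hsize with h | ⟨H, hH, hHc⟩
    · exact h
    · have hbig : ∃ b, n ≤ (H b).card := by
        by_contra hcon
        push Not at hcon
        have h1 := hcon true
        have h2 := hcon false
        have h3 : (H true).card * (H false).card < n * n :=
          Nat.mul_lt_mul_of_lt_of_lt h1 h2
        have h4 : n * n ≤ 2 ^ (2 * L) := by
          calc n * n ≤ 2 ^ L * 2 ^ L := Nat.mul_le_mul hnL hnL
            _ = 2 ^ (2 * L) := by rw [← pow_add]; congr 1; ring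
        omega
      obtain ⟨b, hb⟩ := hbig
      obtain ⟨T, hT, hTc⟩ := Finset.exists_subset_card_eq hb
      exact ⟨T, hT.trans (hH b).1, hTc,
        homog_two (b := b) (fun x hx y hy hxy => (hH b).2 x (hT hx) y (hT hy) hxy)⟩
  · -- large VC dimension: the trivial bound
    have h9 : (2 + 1) ^ (2 * n) ≤ A.card := by
      refine le_trans ?_ hA
      calc (2 + 1) ^ (2 * n) ≤ (2 ^ 2) ^ (2 * n) := Nat.pow_le_pow_left (by norm_num) _
        _ = 2 ^ (4 * n) := by rw [← pow_mul]; congr 1; ring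
        _ ≤ 2 ^ (64 * (d + 1) * L ^ 2) := by
          apply Nat.pow_le_pow_right (by norm_num)
          have : 1 ≤ L ^ 2 := Nat.one_le_pow _ _ hL1
          nlinarith
    obtain ⟨T, hTA, w, hwA, hwT, hTc, hT⟩ := er_step A 0 c (2 * n) 2 (by norm_num) (by
      intro T hT _ y hy hyT
      have hsub : ((A \ insert y T).image (fun z => (T.powersetCard 0).filter
          (fun f => c (insert z (insert y f)) = true))) ⊆ ({∅} : Finset (Finset V)).powerset := by
        intro u hu
        obtain ⟨z, _, rfl⟩ := mem_image.1 hu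
        rw [mem_powerset, ← Finset.powersetCard_zero T]
        exact filter_subset _ _
      refine le_trans (card_le_card hsub) ?_
      rw [card_powerset]
      simp) h9
    obtain ⟨b, hb⟩ : ∃ b, n ≤ (T.filter (fun x => c (insert w {x}) = b)).card := by
      by_contra hcon
      push Not at hcon
      have h1 := hcon true
      have h2 := hcon false
      have h3 : T ⊆ (T.filter (fun x => c (insert w {x}) = true)) ∪
          (T.filter (fun x => c (insert w {x}) = false)) := by
        intro x hx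
        rw [mem_union, mem_filter, mem_filter]
        cases hc : c (insert w {x})
        · exact Or.inr ⟨hx, rfl⟩
        · exact Or.inl ⟨hx, rfl⟩
      have h4 := le_trans (card_le_card h3) (card_union_le _ _)
      omega
    obtain ⟨S, hS, hSc⟩ := Finset.exists_subset_card_eq hb
    have hST : S ⊆ T := hS.trans (filter_subset _ _)
    refine ⟨S, hST.trans hTA, hSc, ?_⟩
    refine homog_of_link (s := 0) (w := w) hST hT ⟨b, ?_⟩
    intro e he hec
    obtain ⟨x, rfl⟩ := Finset.card_eq_one.1 hec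
    exact (mem_filter.1 (hS (he (mem_singleton_self x)))).2

/-! ### iterated exponentials -/

theorem E_mono (j : ℕ) : Monotone (E j) := by
  induction j with
  | zero => intro x y h; exact h
  | succ j ih => intro x y h; exact Nat.pow_le_pow_right (by norm_num) (ih h)

theorem le_E (j x : ℕ) : x ≤ E j x := by
  induction j with
  | zero => exact le_rfl
  | succ j ih => exact le_trans ih Nat.lt_two_pow_self.le

theorem E_mul (j x y : ℕ) (hx : 1 ≤ x) (hy : 1 ≤ y) : E (j + 1) x * E (j + 1) y ≤ E (j + 1) (x + y) := by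
  induction j with
  | zero => exact (pow_add 2 x y).symm.le
  | succ j ih =>
    have h1 : 2 ≤ E (j + 1) x := by
      calc 2 = 2 ^ 1 := rfl
        _ ≤ 2 ^ E j x := Nat.pow_le_pow_right (by norm_num) (le_trans hx (le_E j x))
    have h2 : 2 ≤ E (j + 1) y := by
      calc 2 = 2 ^ 1 := rfl
        _ ≤ 2 ^ E j y := Nat.pow_le_pow_right (by norm_num) (le_trans hy (le_E j y))
    calc E (j + 2) x * E (j + 2) y = 2 ^ (E (j + 1) x + E (j + 1) y) := (pow_add 2 _ _).symm
      _ ≤ 2 ^ (E (j + 1) (x + y)) := by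
        apply Nat.pow_le_pow_right (by norm_num)
        nlinarith
      _ = E (j + 2) (x + y) := rfl

/-- the number of patterns, general uniformity -/
theorem patterns {V : Type} [DecidableEq V] (A : Finset V) (s d m : ℕ) (c : Finset V → Bool)
    (h : VCOn A (s + 2) c d) (T : Finset V) (hT : T ⊆ A) (hTm : T.card ≤ m) (y : V) (hy : y ∈ A)
    (hyT : y ∉ T) :
    ((A \ insert y T).image (fun z => (T.powersetCard s).filter
        (fun f => c (insert z (insert y f)) = true))).card ≤ ((m + 2) ^ (s + 1)) ^ 2 ^ (d + 1) := by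
  refine le_trans (cells (A \ insert y T) (T.powersetCard s)
    (fun f z => c (insert z (insert y f))) d ?_) (Nat.pow_le_pow_left ?_ _)
  · intro P hP hQ
    refine h P (hP.trans sdiff_subset) ?_
    intro Q hQP
    obtain ⟨f, hf, hz⟩ := hQ Q hQP
    rw [mem_powersetCard] at hf
    have hyf : y ∉ f := fun hh => hyT (hf.1 hh)
    refine ⟨insert y f, insert_subset hy (hf.1.trans hT), ?_, ?_⟩
    · rw [card_insert_of_notMem hyf, hf.2]
    · intro z hzP
      have hzA := hP hzP
      rw [mem_sdiff, mem_insert, not_or] at hzA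
      rw [hz z hzP, mem_insert, not_or]
      exact ⟨fun h1 => ⟨⟨hzA.2.1, fun h2 => hzA.2.2 (hf.1 h2)⟩, h1⟩, fun h1 => h1.2⟩
  · rw [card_powersetCard]
    have h1 : T.card.choose s ≤ (m + 2) ^ s :=
      le_trans (Nat.choose_le_pow _ _) (Nat.pow_le_pow_left (by omega) _)
    have h2 : 1 ≤ (m + 2) ^ s := Nat.one_le_pow _ _ (by omega)
    have h3 : (m + 2) ^ (s + 1) = (m + 2) ^ s * (m + 2) := pow_succ _ _
    rw [h3]
    nlinarith

end Pool.Agent.W146.VC
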