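import Pool.Agent.W146.VC.Upper

namespace Pool.Agent.W146.VC

open Finset

theorem step_size (m D a : ℕ) (hm : 1 ≤ m) : ((m + 2) ^ D + 1) ^ m ≤ 2 ^ (2 * (D + 1) * m * m) := by
  have h0 : (m + 2) ^ D + 1 ≤ (m + 2) ^ (D + 1) := by
    have h2 : 1 ≤ (m + 2) ^ D := Nat.one_le_pow _ _ (by omega)
    rw [pow_succ]
    nlinarith
  have h1 : m + 2 ≤ 2 ^ (m + 1) := Nat.lt_two_pow_self
  calc ((m + 2) ^ D + 1) ^ m ≤ ((m + 2) ^ (D + 1)) ^ m := Nat.pow_le_pow_left h0 m
    _ ≤ ((2 ^ (m + 1)) ^ (D + 1)) ^ m := Nat.pow_le_pow_left (Nat.pow_le_pow_left h1 _) _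
    _ = 2 ^ ((m + 1) * (D + 1) * m) := by rw [← pow_mul, ← pow_mul, Nat.mul_assoc]
    _ ≤ 2 ^ (2 * (D + 1) * m * m) := by
      apply Nat.pow_le_pow_right (by norm_num)
      have : (m + 1) * (D + 1) ≤ 2 * (D + 1) * m := by nlinarith
      exact Nat.mul_le_mul_right _ this

/-- the upper bound for all uniformities -/
theorem upper (r d : ℕ) : ∃ C : ℕ, 1 ≤ C ∧ ∀ (V : Type) [DecidableEq V] (A : Finset V)
    (c : Finset V → Bool) (n : ℕ), 2 ≤ n → VCOn A (r + 2) c d →
    E (r + 1) (C * Nat.clog 2 n ^ 2) ≤ A.card → ∃ S ⊆ A, S.card = n ∧ Homog (r + 2) c S := by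
  induction r with
  | zero =>
    refine ⟨64 * (d + 1), by omega, ?_⟩
    intro V _ A c n hn hVC hA
    exact graph V A c d n hn hVC hA
  | succ r ih =>
    obtain ⟨C, hC, h⟩ := ih
    set D := (r + 2) * 2 ^ (d + 1) with hD
    refine ⟨2 * (D + 1) + 2 * C, by omega, ?_⟩
    intro V _ A c n hn hVC hA
    set L := Nat.clog 2 n with hL
    have hL1 : 1 ≤ L := clog_pos' hn
    have hL2 : 1 ≤ L ^ 2 := Nat.one_le_pow _ _ hL1
    set m := E (r + 1) (C * L ^ 2) with hm
    have hx : 1 ≤ C * L ^ 2 := Nat.mul_pos hC hL2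
    have hm1 : 1 ≤ m := le_trans hx (le_E _ _)
    have hsize : ((m + 2) ^ D + 1) ^ m ≤ A.card := by
      refine le_trans (step_size m D 0 hm1) (le_trans ?_ hA)
      show 2 ^ (2 * (D + 1) * m * m) ≤ 2 ^ E (r + 1) ((2 * (D + 1) + 2 * C) * L ^ 2)
      apply Nat.pow_le_pow_right (by norm_num)
      calc 2 * (D + 1) * m * m = 2 * (D + 1) * (m * m) := by ring
        _ ≤ E (r + 1) (2 * (D + 1)) * E (r + 1) (C * L ^ 2 + C * L ^ 2) :=
          Nat.mul_le_mul (le_E _ _) (E_mul r _ _ hx hx)
        _ ≤ E (r + 1) (2 * (D + 1) + (C * L ^ 2 + C * L ^ 2)) :=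
          E_mul r _ _ (by omega) (by omega)
        _ ≤ _ := by
          apply E_mono
          nlinarith
    obtain ⟨T, hTA, w, hwA, hwT, hTc, hT⟩ := er_step A (r + 1) c m ((m + 2) ^ D)
      (Nat.one_le_pow _ _ (by omega)) (by
        intro T hT hTm y hy hyT
        have := patterns A (r + 1) d m c hVC T hT hTm y hy hyT
        rw [← pow_mul] at this
        exact this) hsize
    obtain ⟨S, hS, hSc, hSh⟩ := h V T (fun f => c (insert w f)) n hn (vc_link hTA hwA hwT hVC)
      (by rw [hTc])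
    exact ⟨S, hS.trans hTA, hSc, homog_of_link hS hT hSh⟩

/-- triples, explicit dependence on the VC dimension -/
theorem triples {V : Type} [DecidableEq V] (A : Finset V) (c : Finset V → Bool) (d n : ℕ)
    (hn : 2 ≤ n) (hVC : VCOn A 3 c d) (hA : 2 ^ 2 ^ (192 * (d + 1) * Nat.clog 2 n ^ 2) ≤ A.card) :
    ∃ S ⊆ A, S.card = n ∧ Homog 3 c S := by
  set L := Nat.clog 2 n with hL
  have hL1 : 1 ≤ L := clog_pos' hn
  have hL2 : 1 ≤ L ^ 2 := Nat.one_le_pow _ _ hL1
  set q := 64 * (d + 1) * L ^ 2 with hq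
  have hqd : 2 * (d + 1) ≤ q := by
    rw [hq]
    nlinarith
  have hsize : ((2 ^ q + 2) ^ d + 1) ^ (2 ^ q) ≤ A.card := by
    refine le_trans (step_size (2 ^ q) d 0 Nat.one_le_two_pow) (le_trans ?_ hA)
    apply Nat.pow_le_pow_right (by norm_num)
    calc 2 * (d + 1) * 2 ^ q * 2 ^ q ≤ 2 ^ q * 2 ^ q * 2 ^ q := by
          refine Nat.mul_le_mul_right _ (Nat.mul_le_mul_right _ ?_)
          exact le_trans hqd Nat.lt_two_pow_self.le
      _ = 2 ^ (192 * (d + 1) * L ^ 2) := by
        rw [← pow_add, ← pow_add]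
        congr 1
        rw [hq]
        ring
  obtain ⟨T, hTA, w, hwA, hwT, hTc, hT⟩ := er_step A 1 c (2 ^ q) ((2 ^ q + 2) ^ d)
    (Nat.one_le_pow _ _ (Nat.succ_pos _)) (by
      intro T hT hTm y hy hyT
      have h1 : (A \ insert y T).image (fun z => (T.powersetCard 1).filter
          (fun f => c (insert z (insert y f)) = true)) =
          ((A \ insert y T).image (fun z => T.filter (fun v => c (insert z (insert y {v})) = true))).image
            (fun U => U.image (fun v => ({v} : Finset V))) := by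
        rw [image_image]
        refine image_congr ?_
        intro z _
        ext f
        simp only [Function.comp, mem_filter, mem_image, mem_powersetCard]
        constructor
        · rintro ⟨⟨hf, hf1⟩, hfc⟩
          obtain ⟨v, rfl⟩ := Finset.card_eq_one.1 hf1
          exact ⟨v, ⟨hf (mem_singleton_self v), hfc⟩, rfl⟩
        · rintro ⟨v, ⟨hv, hvc⟩, rfl⟩
          exact ⟨⟨by rw [singleton_subset_iff]; exact hv, card_singleton v⟩, hvc⟩
      rw [h1]
      refine le_trans card_image_le ?_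
      refine le_trans (sauer T _ d ?_ ?_) (Nat.pow_le_pow_left (by omega) _)
      · intro t ht
        obtain ⟨z, _, rfl⟩ := mem_image.1 ht
        exact filter_subset _ _
      · intro s hs
        have hsT : s ⊆ T := by
          obtain ⟨u, hu, hsu⟩ := hs (Subset.refl s)
          obtain ⟨z, _, rfl⟩ := mem_image.1 hu
          have : s ⊆ T.filter (fun v => c (insert z (insert y {v})) = true) := by
            rw [← inter_eq_left]; exact hsu
          exact this.trans (filter_subset _ _)
        refine hVC s (hsT.trans hT) ?_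
        intro Q hQ
        obtain ⟨u, hu, hsu⟩ := hs hQ
        obtain ⟨z, hz, rfl⟩ := mem_image.1 hu
        rw [mem_sdiff, mem_insert, not_or] at hz
        refine ⟨{z, y}, ?_, ?_, ?_⟩
        · intro x hx
          rw [mem_insert, mem_singleton] at hx
          rcases hx with h | h
          · rw [h]; exact hz.1
          · rw [h]; exact hy
        · rw [card_pair hz.2.1]
        · intro v hv
          have hvT := hsT hv
          have hvz : v ≠ z := fun h => hz.2.2 (h ▸ hvT)
          have hvy : v ≠ y := fun h => hyT (h ▸ hvT)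
          have hins : insert v ({z, y} : Finset V) = insert z (insert y {v}) := by
            ext x
            simp only [mem_insert, mem_singleton]
            tauto
          rw [← hsu, mem_inter, mem_filter, hins]
          simp only [mem_insert, mem_singleton, not_or]
          exact ⟨fun h => ⟨⟨hvz, hvy⟩, h.2.2⟩, fun h => ⟨hv, hvT, h.2⟩⟩) hsize
  obtain ⟨S, hS, hSc, hSh⟩ := graph V T (fun f => c (insert w f)) d n hn (vc_link hTA hwA hwT hVC)
    (by rw [hTc])
  exact ⟨S, hS.trans hTA, hSc, homog_of_link hS hT hSh⟩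

end Pool.Agent.W146.VC
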